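import Pool.Agent.MP_6674cc_al.Mg.Main

/-! The group `G(A, L') × ℤ ^ k` is automatic if and only if `A` has finite order. -/

namespace Pool.Agent.Results.MP_6674cc_al.LearyMinasyan

open Pool.Agent.MP_6674cc_al Matrix

theorem result (n k : ℕ) (A : GL (Fin n) ℚ) (L' B : Subgroup (Multiplicative (Fin n → ℤ))) (φ : L' ≃* B)
    (hL : L'.index ≠ 0)
    (hφ : ∀ x : L', (fun i => ((Multiplicative.toAdd (φ x : Multiplicative (Fin n → ℤ))) i : ℚ)) =
      (A : Matrix (Fin n) (Fin n) ℚ) *ᵥ fun j => ((Multiplicative.toAdd (x : Multiplicative (Fin n → ℤ))) j : ℚ))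
    (hP : ∃ P : GL (Fin n) ℝ, (P : Matrix (Fin n) (Fin n) ℝ) * (A : Matrix (Fin n) (Fin n) ℚ).map (fun a => (a : ℝ)) *
      ((P⁻¹ : GL (Fin n) ℝ) : Matrix (Fin n) (Fin n) ℝ) ∈ Matrix.orthogonalGroup (Fin n) ℝ) :
    IsAutomatic (HNNExtension (Multiplicative (Fin n → ℤ)) L' B φ × Multiplicative (Fin k → ℤ)) ↔ IsOfFinOrder A := by
  obtain ⟨P, hP⟩ := hP
  exact automatic_iff k A L' B φ hL hφ P hP

end Pool.Agent.Results.MP_6674cc_al.LearyMinasyan
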